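import Pool.Agent.Helper48.CR.Goals

/-! Averages over residue classes indexed by finite sets (packet AVP of MP_69be96_nt). -/

set_option autoImplicit false

open Finset
open Pool.Agent.Helper60.BFT (Av Av_cons Av_nil Av_prod)

namespace Pool.Agent.Helper27.CR

open Pool.Agent.Helper48.CR

theorem Av_perm {L L' : List ℕ} (h : L.Perm L') : L.Nodup → ∀ (f : (ℕ → ℕ) → ℝ) (a : ℕ → ℕ),
    Av L f a = Av L' f a := by
  induction h with
  | nil => exact fun _ _ _ => rfl
  | cons x h ih =>
    intro hn f a
    rw [Av_cons, Av_cons]
    congr 1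
    exact Finset.sum_congr rfl fun c _ => ih (List.nodup_cons.1 hn).2 f _
  | swap x y l =>
    intro hn f a
    have hxy : y ≠ x := by
      intro h
      subst h
      have := (List.nodup_cons.1 hn).1
      simp at this
    simp only [Av_cons]
    rw [← Finset.sum_div, ← Finset.sum_div, div_div, div_div, mul_comm (x : ℝ), Finset.sum_comm]
    congr 1
    refine Finset.sum_congr rfl fun c _ => Finset.sum_congr rfl fun d _ => ?_
    rw [Function.update_comm hxy]
  | trans h1 h2 ih1 ih2 =>
    intro hn f a
    rw [ih1 hn f a, ih2 (h1.nodup_iff.1 hn) f a]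

theorem Av_append (L L' : List ℕ) (f : (ℕ → ℕ) → ℝ) (a : ℕ → ℕ) :
    Av (L ++ L') f a = Av L (fun b => Av L' f b) a := by
  induction L generalizing a with
  | nil => rfl
  | cons q L ih =>
    rw [List.cons_append, Av_cons, Av_cons]
    congr 1
    exact Finset.sum_congr rfl fun c _ => ih _

theorem avp : AVPG := by
  refine ⟨fun L L' hL hp f a => Av_perm hp hL f a, ?_, ?_, ?_, ?_⟩
  · intro f a
    unfold AvS
    rw [Finset.toList_empty]
    rfl
  · intro S p hp f a
    unfold AvS
    rw [Av_perm (Finset.toList_insert hp) (Finset.nodup_toList _) f a, Av_cons]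
  · intro S T hST f a
    unfold AvS
    have hperm : (S ∪ T).toList.Perm (S.toList ++ T.toList) := by
      refine (List.perm_ext_iff_of_nodup (Finset.nodup_toList _) ?_).2 ?_
      · refine List.nodup_append.2 ⟨Finset.nodup_toList _, Finset.nodup_toList _, ?_⟩
        intro x hx y hy hxy
        subst hxy
        exact (Finset.disjoint_left.1 hST) (Finset.mem_toList.1 hx) (Finset.mem_toList.1 hy)
      · intro x
        simp
    rw [Av_perm hperm (Finset.nodup_toList _) f a, Av_append]
  · intro S h a
    unfold AvS
    rw [Av_prod S S.toList (Finset.nodup_toList _) (fun q hq => Finset.mem_toList.1 hq) h a]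
    rw [Finset.toList_toFinset, Finset.sdiff_self, Finset.prod_empty, one_mul]

end Pool.Agent.Helper27.CR
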